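import Pool.Agent.K1H16.TS.Stm

/-!
# Task 37 of helper16: second layer bound `S_T3`
-/

set_option linter.unusedVariables false

namespace K1H95.TS

open K1H16.TS

/-- first coordinate of the index -/
def ix (n m a x b y : ℤ) : ℤ :=
  if x + b = n ∧ x ≤ m - 2 ∧ y = x then x + 1
  else if x + b = n ∧ x = m - 1 ∧ a = b then m - 2 else x

/-- the region -/
def Rg (n m k x b : ℤ) : Prop :=
  0 ≤ x ∧ x ≤ m ∧ 0 ≤ b ∧ b ≤ n ∧ 2 * x + b ≤ n + m ∧ n ≤ x + 2 * b ∧ ¬ (x = m ∧ b = k)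

/-- properties of the shifted elements -/
def Sh (n m a x b y : ℤ) : Prop :=
  a ≤ b ∧ x ≤ y ∧ (a < b ∨ x < y) ∧ 0 ≤ a ∧ b ≤ n ∧ 0 ≤ x ∧ y ≤ m ∧ (a = 0 ∨ y = m) ∧
    n ≤ a + b + x ∧ b + x + y ≤ n + m

theorem ix_rg {n m k a x b y : ℤ} (hm : 3 ≤ m) (hk : 0 ≤ k) (hn : n = m + 2 * k)
    (h : Sh n m a x b y) : Rg n m k (ix n m a x b y) b := by
  unfold Sh at h
  unfold Rg ix
  split_ifs <;> omega

theorem ix_clique {n m k a x b y a' x' y' : ℤ} (hm : 3 ≤ m) (hk : 0 ≤ k) (hn : n = m + 2 * k)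
    (h : Sh n m a x b y) (h' : Sh n m a' x' b y')
    (he : ix n m a x b y = ix n m a' x' b y') :
    (a = a' ∧ x = x' ∧ y = y') ∨
      (a ≤ a' ∧ x ≤ x' ∧ y ≤ y' ∧ (a' < b ∨ x' < y)) ∨
      (a' ≤ a ∧ x' ≤ x ∧ y' ≤ y ∧ (a < b ∨ x < y')) := by
  unfold Sh at h h'
  unfold ix at he
  split_ifs at he <;> omega

/-- the element attached to an index -/
def psi (n m k x b : ℤ) : Pr :=
  if x = m - 1 ∧ b = k + 1 then ⟨k, m - 1, k, m⟩
  else if x = m ∧ b = k + 1 then ⟨k - 1, m, k, m⟩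
  else if x + b ≤ n then ⟨n - x - b, x, b, m⟩ else ⟨0, x, b, n + m - x - b⟩

theorem psi_OL {n m k x b : ℤ} (hm : 3 ≤ m) (hk : 0 ≤ k) (hn : n = m + 2 * k)
    (h : Rg n m k x b) : OL n m (psi n m k x b) := by
  unfold Rg at h
  unfold psi OL Gr Pr.Ok
  split_ifs <;> dsimp only <;> omega

theorem psi_cf {n m k x b x' b' : ℤ} (hm : 3 ≤ m) (hk : 0 ≤ k) (hn : n = m + 2 * k)
    (h : Rg n m k x b) (h' : Rg n m k x' b') (hc : Cf (psi n m k x b) (psi n m k x' b')) :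
    x = x' ∧ b = b' := by
  unfold Rg at h h'
  unfold psi Cf at hc
  split_ifs at hc <;> dsimp only at hc <;> omega

theorem psi_R {n m k x b : ℤ} (hm : 3 ≤ m) (hk : 0 ≤ k) (hn : n = m + 2 * k)
    (h : Rg n m k x b) : ¬ Cf (psi n m k x b) ⟨k, m, k + 1, m⟩ ∧
      ¬ Cf ⟨k, m, k + 1, m⟩ (psi n m k x b) := by
  unfold Rg at h
  unfold psi Cf
  split_ifs <;> dsimp only <;> omega

/-- the elements of the second layer satisfy the two inequalities -/
theorem Sh_of {n m k : ℤ} {S : Finset Pr} (hm : 4 ≤ m) (hk : 0 ≤ k) (hn : n = m + 2 * k)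
    (hS : Ind S) (hG : ∀ u ∈ S, Gr n m u) (hF : Full n m k S) {u : Pr} (hu : u ∈ S)
    (h1 : 1 ≤ u.a) (h2 : u.y ≤ m - 1) (h3 : u.a = 1 ∨ u.y = m - 1) :
    Sh (n - 1) (m - 1) (u.a - 1) u.x (u.b - 1) u.y := by
  obtain ⟨⟨g1, g2, g3⟩, g4, g5, g6, g7⟩ := hG u hu
  have key1 : n + 1 ≤ u.a + u.b + u.x := by
    by_contra hlt
    by_cases hex : u.x = m - 1 ∧ n - u.a - u.x = k + 1
    · have := hS u hu _ hF.2 (by unfold Cf; dsimp only; omega)
      have := congrArg Pr.y this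
      dsimp only at this
      omega
    · have hv := hF.1 u.x (n - u.a - u.x) g6 (by omega) (by omega) (by omega) (by omega)
        (by omega) hex
      have := hS u hu _ hv (by unfold Cf lv; dsimp only; omega)
      have := congrArg Pr.y this
      unfold lv at this
      dsimp only at this
      omega
  have key2 : u.b + u.x + u.y ≤ n + m - 1 := by
    by_contra hlt
    have hv := hF.1 (n + m - u.b - u.y) u.b (by omega) (by omega) (by omega) (by omega) (by omega)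
        (by omega) (by omega)
    have := hS _ hv u hu (by unfold Cf lv; dsimp only; omega)
    have := congrArg Pr.a this
    unfold lv at this
    dsimp only at this
    omega
  unfold Sh
  omega

theorem t_T3 : S_T3 := by
  intro n m k hev hm hn S hS hG hF
  obtain ⟨m', rfl⟩ : ∃ m', m = m' + 1 := ⟨m - 1, by omega⟩
  obtain ⟨n', rfl⟩ : ∃ n', n = n' + 1 := ⟨n - 1, by omega⟩
  have hmz : (4:ℤ) ≤ (m' + 1 : ℕ) := by exact_mod_cast hm
  have hkz : (0:ℤ) ≤ (k:ℤ) := by positivity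
  have hnz : ((n' + 1 : ℕ) : ℤ) = ((m' + 1 : ℕ) : ℤ) + 2 * k := by exact_mod_cast hn
  set T := S.filter (fun u : Pr => 1 ≤ u.a ∧ u.y ≤ ((m' + 1 : ℕ) : ℤ) - 1 ∧
    (u.a = 1 ∨ u.y = ((m' + 1 : ℕ) : ℤ) - 1)) with hT
  have hSh : ∀ u ∈ T, Sh (n' : ℤ) (m' : ℤ) (u.a - 1) u.x (u.b - 1) u.y := by
    intro u hu
    rw [hT, Finset.mem_filter] at hu
    have := Sh_of hmz hkz hnz hS hG hF hu.1 hu.2.1 hu.2.2.1 hu.2.2.2
    have e1 : ((n' + 1 : ℕ) : ℤ) - 1 = n' := by push_cast; ring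
    have e2 : ((m' + 1 : ℕ) : ℤ) - 1 = m' := by push_cast; ring
    rwa [e1, e2] at this
  have hm3 : (3:ℤ) ≤ (m' : ℤ) := by omega
  have hn3 : (n' : ℤ) = m' + 2 * k := by omega
  set Φ : Pr → Pr := fun u => psi n' m' k (ix n' m' (u.a - 1) u.x (u.b - 1) u.y) (u.b - 1) with hΦ
  set R : Pr := ⟨k, m', k + 1, m'⟩ with hR
  have hRg : ∀ u ∈ T, Rg (n' : ℤ) (m' : ℤ) k (ix n' m' (u.a - 1) u.x (u.b - 1) u.y) (u.b - 1) :=
    fun u hu => ix_rg hm3 hkz hn3 (hSh u hu)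
  have hinj : Set.InjOn Φ T := by
    intro u hu v hv huv
    have hcf : Cf (Φ u) (Φ v) := by
      rw [← huv]
      obtain ⟨⟨⟨h1, h2, h3⟩, _⟩, _⟩ := psi_OL hm3 hkz hn3 (hRg u hu)
      exact ⟨le_refl _, le_refl _, le_refl _, le_refl _, h3⟩
    obtain ⟨hi, hb⟩ := psi_cf hm3 hkz hn3 (hRg u hu) (hRg v hv) hcf
    have hv' := hSh v hv
    rw [← hb] at hi hv'
    have hu0 := Finset.mem_filter.1 hu
    have hv0 := Finset.mem_filter.1 hv
    rcases ix_clique hm3 hkz hn3 (hSh u hu) hv' hi with h | h | h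
    · exact ok_of_eq ⟨by omega, by omega, by omega, by omega⟩
    · exact hS u hu0.1 v hv0.1 ⟨by omega, by omega, by omega, by omega, by omega⟩
    · exact (hS v hv0.1 u hu0.1 ⟨by omega, by omega, by omega, by omega, by omega⟩).symm
  have hRnot : R ∉ T.image Φ := by
    intro hmem
    obtain ⟨u, hu, he⟩ := Finset.mem_image.1 hmem
    have h1 := (psi_R hm3 hkz hn3 (hRg u hu)).1
    apply h1
    have he' : psi n' m' k (ix n' m' (u.a - 1) u.x (u.b - 1) u.y) (u.b - 1) = R := he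
    rw [he', hR]
    unfold Cf
    dsimp only
    omega
  have hcard : (insert R (T.image Φ)).card = T.card + 1 := by
    rw [Finset.card_insert_of_notMem hRnot, Finset.card_image_of_injOn hinj]
  have hOL : ∀ u ∈ insert R (T.image Φ), OL (n' : ℕ) (m' : ℕ) u := by
    intro u hu
    rcases Finset.mem_insert.1 hu with rfl | hu
    · rw [hR]
      unfold OL Gr Pr.Ok
      dsimp only
      omega
    · obtain ⟨v, hv, rfl⟩ := Finset.mem_image.1 hu
      exact psi_OL hm3 hkz hn3 (hRg v hv)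
  have hInd : Ind (insert R (T.image Φ)) := by
    intro u hu v hv hc
    rcases Finset.mem_insert.1 hu with rfl | hu1
    · rcases Finset.mem_insert.1 hv with rfl | hv1
      · rfl
      · obtain ⟨v', hv2, rfl⟩ := Finset.mem_image.1 hv1
        exact absurd hc (psi_R hm3 hkz hn3 (hRg v' hv2)).2
    · obtain ⟨u', hu2, rfl⟩ := Finset.mem_image.1 hu1
      rcases Finset.mem_insert.1 hv with rfl | hv1
      · exact absurd hc (psi_R hm3 hkz hn3 (hRg u' hu2)).1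
      · obtain ⟨v', hv2, rfl⟩ := Finset.mem_image.1 hv1
        obtain ⟨hi, hb⟩ := psi_cf hm3 hkz hn3 (hRg u' hu2) (hRg v' hv2) hc
        show psi _ _ _ _ _ = psi _ _ _ _ _
        rw [hi, hb]
  have hle := OL_le (n := n') (m := m') (by omega) (by omega) hInd hOL
  rw [hcard] at hle
  have hg := g_two (n' - m') m'
  have hD : n' - m' = 2 * k := by omega
  have hmod : ¬ ((n' - m') % 2 = 0 ∧ m' % 2 = 0) := by
    obtain ⟨r, hr⟩ := hev
    omega
  rw [if_neg hmod] at hg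
  have e : n' - m' + m' + 1 = n' + 1 := by omega
  rw [e, add_zero] at hg
  have : g (n' - m') m' ≤ (n' + 1) * (m' + 1) / 2 := by omega
  omega

end K1H95.TS
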